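import Mathlib

namespace Pool.Agent.Results.MP_8d161b_co.Half

/-- `G` contains a `p`-scheme. -/
def HasScheme {V : Type} (G : SimpleGraph V) (p : ℕ) : Prop :=
  ∃ (v : Fin p → V) (C : Fin p → Fin p → Set V), Function.Injective v ∧ (∀ i j, C i j = C j i) ∧
    (∀ i j, i ≠ j → (G.induce (C i j)).Connected ∧ v i ∈ C i j ∧ v j ∈ C i j) ∧
    ∀ i j k l, i ≠ j → i ≠ k → i ≠ l → j ≠ k → j ≠ l → k ≠ l → Disjoint (C i j) (C k l)

/-- `G` has a `K_g` minor: `g` disjoint connected, pairwise adjacent branch sets. -/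
def HasMinor {V : Type} (G : SimpleGraph V) (g : ℕ) : Prop :=
  ∃ B : Fin g → Set V, (∀ a, (G.induce (B a)).Connected) ∧
    ∀ a b, a ≠ b → Disjoint (B a) (B b) ∧ ∃ x ∈ B a, ∃ y ∈ B b, G.Adj x y

/-- The largest `g` such that every finite graph with a `p`-scheme has a `K_g` minor. -/
noncomputable def gfun (p : ℕ) : ℕ :=
  sSup {g | ∀ (V : Type) [Finite V] (G : SimpleGraph V), HasScheme G p → HasMinor G g}

open Finset

lemma nbr {V : Type} {G : SimpleGraph V} {B : Set V} (h : (G.induce B).Connected) {x y : V}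
    (hx : x ∈ B) (hy : y ∈ B) (hne : x ≠ y) : ∃ z ∈ B, G.Adj x z := by
  obtain ⟨w⟩ := h.preconnected ⟨x, hx⟩ ⟨y, hy⟩
  cases w with
  | nil => exact absurd rfl hne
  | cons h _ => exact ⟨_, Subtype.prop _, h⟩

section
variable {d p : ℕ}

abbrev A (d : ℕ) := Fin d → ZMod 3

lemma three (x : A d) : x + x + x = 0 := by
  funext i
  simp only [Pi.add_apply, Pi.zero_apply]
  generalize x i = y
  revert y; decide

def IsL (L : Finset (A d)) : Prop := L.card = 3 ∧ ∑ x ∈ L, x = 0

lemma isL {x y z : A d} (h : x ≠ y) (hs : x + y + z = 0) : IsL {x, y, z} := by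
  have h1 : x ≠ z := by
    rintro rfl; exact h (by linear_combination three x - hs)
  have h2 : y ≠ z := by
    rintro rfl; exact h (by linear_combination hs - three y)
  refine ⟨card_eq_three.2 ⟨x, y, z, h, h1, h2, rfl⟩, ?_⟩
  rw [sum_insert (by simp [h, h1]), sum_pair h2, ← add_assoc, hs]

lemma IsL.eq {L : Finset (A d)} (hL : IsL L) {x y : A d} (h : x ≠ y) (hx : x ∈ L) (hy : y ∈ L) :
    L = {x, y, -x - y} := by
  have h1 : ((L.erase x).erase y).card = 1 := by
    rw [card_erase_of_mem (mem_erase.2 ⟨h.symm, hy⟩), card_erase_of_mem hx, hL.1]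
  obtain ⟨z, hz⟩ := card_eq_one.1 h1
  have h2 := hL.2
  rw [← add_sum_erase _ _ hx, ← add_sum_erase _ _ (mem_erase.2 ⟨h.symm, hy⟩), hz,
    sum_singleton] at h2
  rw [show -x - y = z by linear_combination -h2, ← hz, insert_erase (mem_erase.2 ⟨h.symm, hy⟩),
    insert_erase hx]

def Gr (e : Fin p → A d) : SimpleGraph (Fin p ⊕ Finset (A d)) where
  Adj u v := match u, v with
    | .inl i, .inr L => IsL L ∧ e i ∈ L
    | .inr L, .inl i => IsL L ∧ e i ∈ L
    | _, _ => False
  symm := ⟨by rintro (u | u) (v | v) h <;> exact h⟩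
  loopless := ⟨by rintro (u | u) h <;> exact h⟩

lemma scheme {e : Fin p → A d} (he : Function.Injective e) : HasScheme (Gr e) p := by
  refine ⟨Sum.inl, fun i j => {.inl i, .inl j, .inr {e i, e j, -e i - e j}}, Sum.inl_injective,
    fun i j => ?_, fun i j hij => ⟨?_, by simp, by simp⟩, ?_⟩
  · beta_reduce
    rw [Set.insert_comm, Finset.insert_comm, show -e i - e j = -e j - e i by abel]
  · have hL : IsL {e i, e j, -e i - e j} := isL (he.ne hij) (by abel)
    refine (SimpleGraph.connected_iff_exists_forall_reachable _).2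
      ⟨⟨.inr {e i, e j, -e i - e j}, by simp⟩, ?_⟩
    rintro ⟨x, rfl | rfl | rfl⟩
    · exact SimpleGraph.Adj.reachable (show IsL _ ∧ _ from ⟨hL, by simp⟩)
    · exact SimpleGraph.Adj.reachable (show IsL _ ∧ _ from ⟨hL, by simp⟩)
    · rfl
  · intro i j k l h1 h2 h3 h4 h5 h6
    rw [Set.disjoint_left]
    rintro _ (rfl | rfl | rfl) h <;>
      simp only [Set.mem_insert_iff, Set.mem_singleton_iff, Sum.inl.injEq, Sum.inr.injEq,
        reduceCtorEq, or_false, false_or] at h
    · omega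
    · omega
    · have a : e k ∈ ({e i, e j, -e i - e j} : Finset (A d)) := by rw [h]; simp
      have b : e l ∈ ({e i, e j, -e i - e j} : Finset (A d)) := by rw [h]; simp
      simp only [mem_insert, mem_singleton, he.eq_iff, h2.symm, h3.symm, h4.symm, h5.symm,
        false_or] at a b
      exact h6 (he (a.trans b.symm))

lemma minor {e : Fin p → A d} (he : Function.Injective e) {g : ℕ} (hg : 5 ≤ g)
    (h : HasMinor (Gr e) g) :
    ∃ T : Finset (A d), ThreeAPFree (T : Set (A d)) ∧ 2 * g ≤ p + 2 * T.card := by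
  classical
  obtain ⟨B, hc, hB⟩ := h
  let P : Fin g → Finset (Fin p) := fun a => univ.filter fun i => Sum.inl i ∈ B a
  have mP : ∀ a i, i ∈ P a ↔ Sum.inl i ∈ B a := fun a i => by simp [P]
  have ne : ∀ a, (P a).Nonempty := by
    intro a
    by_contra hn
    have hn' : ∀ i, Sum.inl i ∉ B a := fun i hi => hn ⟨i, (mP a i).2 hi⟩
    obtain ⟨⟨x, hx⟩⟩ := (hc a).nonempty
    have uniq : ∀ y ∈ B a, y = x := by
      intro y hy
      by_contra hyx
      obtain ⟨z, hz, hadj⟩ := nbr (hc a) hy hx hyx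
      rcases y with y | y
      · exact hn' y hy
      · rcases z with z | z
        exacts [hn' z hz, hadj]
    rcases x with x | L
    · exact hn' x hx
    have key : ∀ b ∈ univ.erase a, ∃ i, Sum.inl i ∈ B b ∧ IsL L ∧ e i ∈ L := by
      intro b hb
      obtain ⟨-, x, hx, y, hy, hadj⟩ := hB a b (mem_erase.1 hb).1.symm
      rw [uniq x hx] at hadj
      rcases y with y | y
      exacts [⟨y, hy, hadj⟩, hadj.elim]
    have hcard : (univ.erase a).card = g - 1 := by simp
    obtain ⟨b0, hb0⟩ := card_pos.1 (show 0 < (univ.erase a).card by omega)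
    obtain ⟨i0, -, hL, -⟩ := key b0 hb0
    haveI : Nonempty (Fin p) := ⟨i0⟩
    choose! f hf using key
    have := card_le_card_of_injOn (s := univ.erase a) (t := L) (fun b => e (f b))
      (fun b hb => (hf b hb).2.2) (fun b hb c hc hbc => by
        by_contra hn
        exact Set.disjoint_left.1 (hB b c hn).1 (hf b hb).1 (he hbc ▸ (hf c hc).1))
    rw [hL.1] at this; omega
  choose π hπ using ne
  have πinj : ∀ a b, e (π a) = e (π b) → a = b := fun a b hab => by
    by_contra hn
    exact Set.disjoint_left.1 (hB a b hn).1 ((mP _ _).1 (hπ a)) (he hab ▸ (mP _ _).1 (hπ b))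
  let T := univ.filter fun a => (P a).card = 1
  have one : ∀ a ∈ T, ∀ i, Sum.inl i ∈ B a → i = π a := fun a ha i hi =>
    card_le_one.1 (mem_filter.1 ha).2.le _ ((mP _ _).2 hi) _ (hπ a)
  have half : ∀ a ∈ T, ∀ b ∈ T, ∀ x ∈ B a, ∀ L, Sum.inr L ∈ B b → (Gr e).Adj x (.inr L) →
      IsL L ∧ e (π a) ∈ L ∧ e (π b) ∈ L := by
    intro a ha b hb x hx L hL hadj
    obtain ⟨z, hz, hz'⟩ := nbr (hc b) hL ((mP _ _).1 (hπ b)) (by simp)
    rcases x with x | x
    · rcases z with z | z
      · exact ⟨hadj.1, one a ha x hx ▸ hadj.2, one b hb z hz ▸ hz'.2⟩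
      · exact hz'.elim
    · exact hadj.elim
  have pair : ∀ a ∈ T, ∀ b ∈ T, a ≠ b → ∀ L, IsL L → e (π a) ∈ L → e (π b) ∈ L →
      Sum.inr L ∈ B a ∨ Sum.inr L ∈ B b := by
    intro a ha b hb hab L hL h1 h2
    have hne : e (π a) ≠ e (π b) := fun h => hab (πinj a b h)
    obtain ⟨-, x, hx, y, hy, hadj⟩ := hB a b hab
    rcases y with y | y
    · rcases x with x | x
      · exact hadj.elim
      · obtain ⟨c1, c2, c3⟩ := half b hb a ha _ hy x hx hadj.symm
        left; rwa [hL.eq hne h1 h2, ← c1.eq hne c3 c2]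
    · obtain ⟨c1, c2, c3⟩ := half a ha b hb _ hx y hy hadj
      right; rwa [hL.eq hne h1 h2, ← c1.eq hne c2 c3]
  refine ⟨T.image fun a => e (π a), ?_, ?_⟩
  · intro x hx y hy z hz hs
    obtain ⟨a, ha, rfl⟩ := mem_image.1 hx
    obtain ⟨b, hb, rfl⟩ := mem_image.1 hy
    obtain ⟨c, hc', rfl⟩ := mem_image.1 hz
    by_contra hne
    have hL : IsL {e (π a), e (π b), e (π c)} :=
      isL hne (by linear_combination hs + three (e (π b)))
    have hab : a ≠ b := by rintro rfl; exact hne rfl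
    have hac : a ≠ c := by
      rintro rfl; exact hne (by linear_combination three (e (π a)) - three (e (π b)) - hs)
    have hbc : b ≠ c := by rintro rfl; exact hne (add_right_cancel hs)
    have d1 : ∀ u, u ∈ B a → u ∉ B b := fun u hu => Set.disjoint_left.1 (hB a b hab).1 hu
    have d2 : ∀ u, u ∈ B a → u ∉ B c := fun u hu => Set.disjoint_left.1 (hB a c hac).1 hu
    have d3 : ∀ u, u ∈ B b → u ∉ B c := fun u hu => Set.disjoint_left.1 (hB b c hbc).1 hu
    rcases pair a ha b hb hab _ hL (by simp) (by simp) with h1 | h1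
    · exact (pair b hb c hc' hbc _ hL (by simp) (by simp)).elim (d1 _ h1) (d2 _ h1)
    · exact (pair a ha c hc' hac _ hL (by simp) (by simp)).elim (fun h => d1 _ h h1) (d3 _ h1)
  · rw [card_image_of_injective _ πinj]
    have h1 : ∑ a, (P a).card ≤ p := by
      rw [← card_biUnion]
      · simpa using card_le_univ (univ.biUnion P)
      · intro a _ b _ hab
        exact disjoint_left.2 fun i h1 h2 =>
          Set.disjoint_left.1 (hB a b hab).1 ((mP _ _).1 h1) ((mP _ _).1 h2)
    have h2 : ∑ _a : Fin g, 2 ≤ ∑ a, ((P a).card + 2 * if (P a).card = 1 then 1 else 0) :=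
      sum_le_sum fun a _ => by
        have := card_pos.2 ⟨_, hπ a⟩
        split_ifs <;> omega
    rw [sum_add_distrib, ← mul_sum, ← card_filter] at h2
    simp only [sum_const, card_univ, Fintype.card_fin, smul_eq_mul] at h2
    show 2 * g ≤ p + 2 * (univ.filter fun a => (P a).card = 1).card
    omega

end

theorem result (ε : ℝ) (hε : 0 < ε) : ∃ P : ℕ, ∀ p ≥ P, (gfun p : ℝ) ≤ (1 / 2 + ε) * p := by
  refine ⟨cornersTheoremBound (ε / 3) + 10, fun p hp => ?_⟩
  have h1 : p ≤ 3 ^ Nat.clog 3 p := Nat.le_pow_clog (by norm_num) p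
  have h2 : 3 ^ Nat.clog 3 p ≤ 3 * p := by
    have a := Nat.pow_pred_clog_lt_self (b := 3) (by norm_num) (show 1 < p by omega)
    have b := Nat.clog_pos (b := 3) (by norm_num) (show 2 ≤ p by omega)
    obtain ⟨c, hc⟩ := Nat.exists_eq_succ_of_ne_zero b.ne'
    rw [hc] at a ⊢
    simp only [Nat.pred_succ] at a
    rw [Nat.pow_succ]; omega
  generalize Nat.clog 3 p = d at h1 h2
  have hA : Fintype.card (A d) = 3 ^ d := by simp [A]
  obtain ⟨e⟩ : Nonempty (Fin p ↪ A d) := Function.Embedding.nonempty_of_card_le (by simpa [hA])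
  have hp' : (10 : ℝ) ≤ p := by exact_mod_cast (show 10 ≤ p by omega)
  have key : ∀ g, HasMinor (Gr e) g → g ≤ ⌊(1 / 2 + ε) * p⌋₊ := by
    intro g hg
    refine Nat.le_floor ?_
    rcases Nat.lt_or_ge g 5 with h5 | h5
    · have : (g : ℝ) ≤ 5 := by exact_mod_cast h5.le
      nlinarith
    · obtain ⟨T, hT, hc⟩ := minor e.injective h5 hg
      have h3 : (T.card : ℝ) < ε / 3 * Fintype.card (A d) := by
        by_contra hn
        exact roth_3ap_theorem (ε / 3) (by positivity) (by omega) T (not_lt.1 hn) hT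
      have h4 : (Fintype.card (A d) : ℝ) ≤ 3 * p := by rw [hA]; exact_mod_cast h2
      have h6 : (2 * g : ℝ) ≤ p + 2 * T.card := by exact_mod_cast hc
      nlinarith
  have : gfun p ≤ ⌊(1 / 2 + ε) * p⌋₊ :=
    csSup_le' fun g hg => key g (hg _ (Gr e) (scheme e.injective))
  exact (Nat.cast_le.2 this).trans (Nat.floor_le (by positivity))

end Pool.Agent.Results.MP_8d161b_co.Half
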